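import Pool.Agent.TH977.Cyc.Erg

/-!
# Peres' conjecture for convolution walks on cycles

Every sequence of ergodic convolution walks on cycles `ℤ/n_k` with `n_k → ∞` and
`T_rel / T_mix → 0` loses cutoff under a vanishing perturbation of the step law which keeps
`T_rel / T_mix → 0`; such sequences exist along every sequence `n_k → ∞`.
-/

open Finset Filter Topology

namespace Pool.Agent.Results.MP_ee50b4_pr.FragileCutoff

noncomputable section

/-- The law `μ^{*t}` of the convolution walk on `ℤ/n` at time `t`, started from `0`. -/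
def law {n : ℕ} [NeZero n] (μ : ZMod n → ℝ) : ℕ → ZMod n → ℝ
  | 0 => fun x => if x = 0 then 1 else 0
  | t + 1 => fun x => ∑ y, law μ t y * μ (x - y)

/-- Total variation distance `‖μ^{*t} - π‖_TV` to the uniform distribution `π`. -/
def dist {n : ℕ} [NeZero n] (μ : ZMod n → ℝ) (t : ℕ) : ℝ :=
  (1 / 2) * ∑ x, |law μ t x - 1 / (n : ℝ)|

/-- The mixing time `T_mix(ε) = min {t : ‖μ^{*t} - π‖_TV ≤ ε}`. -/
def tmix {n : ℕ} [NeZero n] (μ : ZMod n → ℝ) (ε : ℝ) : ℕ := sInf {t : ℕ | dist μ t ≤ ε}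

/-- The eigenvalue `∑ x, μ(x) exp(2 π i j x / n)`. -/
def eig {n : ℕ} [NeZero n] (μ : ZMod n → ℝ) (j : ZMod n) : ℂ :=
  ∑ x, (μ x : ℂ) * Complex.exp (2 * Real.pi * Complex.I * (j.val * x.val) / n)

/-- The relaxation time `1 / (1 - max_{j ≠ 0} |eig j|)`. -/
def trel {n : ℕ} [NeZero n] (μ : ZMod n → ℝ) : ℝ :=
  1 / (1 - ⨆ j : {j : ZMod n // j ≠ 0}, ‖eig μ j‖)

/-- `μ` is a probability measure on `ℤ/n` whose support is not contained in a coset of a proper
subgroup (the convolution walk is irreducible and aperiodic). -/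
structure Ergodic {n : ℕ} [NeZero n] (μ : ZMod n → ℝ) : Prop where
  nonneg : ∀ x, 0 ≤ μ x
  sum_one : ∑ x, μ x = 1
  support : ∀ (H : AddSubgroup (ZMod n)) (a : ZMod n), (∀ x, μ x ≠ 0 → x - a ∈ H) → H = ⊤

/-- `T_rel / T_mix(1/2) → 0`. -/
def PeresCondition (n : ℕ → ℕ) [∀ k, NeZero (n k)] (μ : ∀ k, ZMod (n k) → ℝ) : Prop :=
  Tendsto (fun k => trel (μ k) / (tmix (μ k) (1 / 2) : ℝ)) atTop (𝓝 0)

/-- Total variation cutoff: `T_mix(ε) / T_mix(1-ε) → 1` for every fixed `ε ∈ (0,1/2)`. -/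
def HasCutoff (n : ℕ → ℕ) [∀ k, NeZero (n k)] (μ : ∀ k, ZMod (n k) → ℝ) : Prop :=
  ∀ ε : ℝ, 0 < ε → ε < 1 / 2 →
    Tendsto (fun k => (tmix (μ k) ε : ℝ) / (tmix (μ k) (1 - ε) : ℝ)) atTop (𝓝 1)

open Pool.Agent.TH977

section one

variable {n : ℕ} [NeZero n]

theorem law_eq (μ : ZMod n → ℝ) (t : ℕ) : law μ t = Cyc.cpow μ t := by
  induction t with
  | zero => rfl
  | succ t ih => rw [law, ih]; rfl

theorem dist_eq (μ : ZMod n → ℝ) (t : ℕ) : dist μ t = Cyc.tv (Cyc.cpow μ t) := by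
  rw [dist, law_eq, Cyc.tv]

theorem eig_eq (μ : ZMod n → ℝ) (j : ZMod n) : eig μ j = Cyc.F μ j := by
  unfold eig Cyc.F
  refine Finset.sum_congr rfl fun x _ => ?_
  congr 1
  have h := ZMod.stdAddChar_coe (N := n) ((j.val * x.val : ℕ) : ℤ)
  have h2 : (((j.val * x.val : ℕ) : ℤ) : ZMod n) = j * x := by
    push_cast
    rw [ZMod.natCast_zmod_val, ZMod.natCast_zmod_val]
  rw [h2] at h
  rw [h]
  push_cast
  rfl

/-- the second largest absolute value of an eigenvalue -/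
def lam (μ : ZMod n → ℝ) : ℝ := ⨆ j : {j : ZMod n // j ≠ 0}, ‖eig μ j‖

theorem lam_nonneg (μ : ZMod n → ℝ) : 0 ≤ lam μ := Real.iSup_nonneg fun _ => norm_nonneg _

theorem le_lam (μ : ZMod n → ℝ) (j : ZMod n) (hj : j ≠ 0) : ‖Cyc.F μ j‖ ≤ lam μ := by
  rw [← eig_eq]
  exact le_ciSup (f := fun j : {j : ZMod n // j ≠ 0} => ‖eig μ j‖)
    (Set.finite_range _).bddAbove ⟨j, hj⟩

theorem lam_lt {μ : ZMod n → ℝ} (h : Ergodic μ) : lam μ < 1 := by
  unfold lam
  rcases isEmpty_or_nonempty {j : ZMod n // j ≠ 0} with he | he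
  · rw [Real.iSup_of_isEmpty]; exact one_pos
  · obtain ⟨j, hj⟩ := exists_eq_ciSup_of_finite (f := fun j : {j : ZMod n // j ≠ 0} => ‖eig μ j‖)
    rw [← hj]
    simp only [eig_eq]
    exact Cyc.norm_F_lt_one h.nonneg h.sum_one h.support j.2

theorem lam_le {μ : ZMod n → ℝ} {c : ℝ} (hc : 0 ≤ c) (h : ∀ j, j ≠ 0 → ‖Cyc.F μ j‖ ≤ c) :
    lam μ ≤ c := by
  refine Real.iSup_le (fun j => ?_) hc
  rw [eig_eq]
  exact h j j.2

/-- the perturbed step law -/
theorem mix_eq (ν : ZMod n → ℝ) (q : ℝ) : (fun x => (1 - q) * ν x + q / (n : ℝ)) =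
    (1 - q) • ν + q • Cyc.unif n := by
  funext x
  simp only [Pi.add_apply, Pi.smul_apply, smul_eq_mul, Cyc.unif]
  ring

theorem mix_ergodic {ν : ZMod n → ℝ} (h : Ergodic ν) {q : ℝ} (h0 : 0 < q) (h1 : q ≤ 1) :
    Ergodic fun x => (1 - q) * ν x + q / (n : ℝ) := by
  have hn := Cyc.npos (n := n)
  refine ⟨fun x => ?_, ?_, fun H a hH => ?_⟩
  · have := h.nonneg x
    have h2 : 0 ≤ 1 - q := by linarith
    positivity
  · rw [Finset.sum_add_distrib, ← Finset.mul_sum, h.sum_one, Finset.sum_const, card_univ,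
      ZMod.card, nsmul_eq_mul]
    field_simp
    ring
  · have hall : ∀ x, x - a ∈ H := by
      intro x
      apply hH
      have := h.nonneg x
      have h2 : 0 ≤ 1 - q := by linarith
      have h3 : 0 < q / (n : ℝ) := by positivity
      have h4 : 0 ≤ (1 - q) * ν x := mul_nonneg h2 this
      linarith
    rw [eq_top_iff]
    intro x _
    have := hall (x + a)
    simpa using this

theorem trel_mix_le {ν : ZMod n → ℝ} (h : Ergodic ν) {q : ℝ} (h0 : 0 < q) (h1 : q ≤ 1) :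
    0 ≤ trel (fun x => (1 - q) * ν x + q / (n : ℝ)) ∧
      trel (fun x => (1 - q) * ν x + q / (n : ℝ)) ≤ trel ν := by
  have hl := lam_lt h
  have hl2 := lam_lt (mix_ergodic h h0 h1)
  have hle : lam (fun x => (1 - q) * ν x + q / (n : ℝ)) ≤ lam ν := by
    refine lam_le (lam_nonneg _) fun j hj => ?_
    rw [mix_eq, Cyc.F_add, Cyc.F_smul, Cyc.F_smul, Cyc.F_unif j hj, mul_zero, add_zero, norm_mul,
      Complex.norm_real, Real.norm_eq_abs, abs_of_nonneg (by linarith)]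
    calc (1 - q) * ‖Cyc.F ν j‖ ≤ 1 * ‖Cyc.F ν j‖ :=
          mul_le_mul_of_nonneg_right (by linarith) (norm_nonneg _)
      _ ≤ lam ν := by rw [one_mul]; exact le_lam ν j hj
  unfold trel
  change 0 ≤ 1 / (1 - lam _) ∧ 1 / (1 - lam _) ≤ 1 / (1 - lam ν)
  refine ⟨one_div_nonneg.mpr (by linarith), ?_⟩
  exact one_div_le_one_div_of_le (by linarith) (by linarith)

end one

/-- number of random generators -/
def kk (n : ℕ) : ℕ := ⌈8 * Real.log (2 * n)⌉₊

theorem kk_spec (n : ℕ) : Real.log (2 * n) ≤ kk n * ((1 / 2 : ℝ) ^ 2 / 2) := by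
  have := Nat.le_ceil (8 * Real.log (2 * n))
  unfold kk
  linarith

theorem kk_pos {n : ℕ} (hn : 1 ≤ n) : 0 < kk n := by
  unfold kk
  rw [Nat.ceil_pos]
  have h1 : (1 : ℝ) ≤ n := by exact_mod_cast hn
  have : 0 < Real.log (2 * n) := Real.log_pos (by linarith)
  positivity

theorem kk_pow_div (M : ℕ) :
    Tendsto (fun n : ℕ => (2 * (kk n : ℝ)) ^ M / n) atTop (𝓝 0) := by
  have h1 : (fun x : ℝ => Real.log x ^ M) =o[atTop] (fun x : ℝ => x) :=
    Real.isLittleO_pow_log_id_atTop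
  have h2 := h1.tendsto_div_nhds_zero
  have h3 : Tendsto (fun n : ℕ => (2 * n : ℝ)) atTop atTop :=
    tendsto_natCast_atTop_atTop.const_mul_atTop (by norm_num)
  have h4 := (h2.comp h3).const_mul ((32 : ℝ) ^ M * 2)
  rw [mul_zero] at h4
  refine squeeze_zero' (Eventually.of_forall fun n => by positivity) ?_ h4
  filter_upwards [eventually_ge_atTop 2] with n hn
  have hn' : (2 : ℝ) ≤ n := by exact_mod_cast hn
  have hlog : 1 ≤ Real.log (2 * n) := by
    rw [Real.le_log_iff_exp_le (by linarith)]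
    have := Real.exp_one_lt_d9
    linarith
  have h5 : (kk n : ℝ) ≤ 16 * Real.log (2 * n) := by
    unfold kk
    have := (Nat.ceil_lt_add_one (show 0 ≤ 8 * Real.log (2 * n) by positivity)).le
    linarith
  simp only [Function.comp]
  rw [div_le_iff₀ (by positivity)]
  have e : (32 : ℝ) ^ M * 2 * (Real.log (2 * n) ^ M / (2 * n)) * n =
      (32 * Real.log (2 * n)) ^ M := by
    rw [mul_pow]
    field_simp
  rw [e]
  exact pow_le_pow_left₀ (by positivity) (by linarith) M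

/-- Along every sequence `n_k → ∞` there are ergodic convolution walks with
`T_rel / T_mix → 0`. -/
theorem exists_peres (n : ℕ → ℕ) [∀ k, NeZero (n k)] (hn : Tendsto n atTop atTop) :
    ∃ ν : ∀ k, ZMod (n k) → ℝ, (∀ k, Ergodic (ν k)) ∧ PeresCondition n ν := by
  have hn1 : ∀ k, 1 ≤ n k := fun k => Nat.pos_of_ne_zero (NeZero.ne (n k))
  choose a ha using fun k => Cyc.exists_good (n := n k) (kk (n k)) (show (0 : ℝ) < 1 / 2 by norm_num)
    (kk_spec (n k))
  have hF : ∀ k j, j ≠ 0 → ‖Cyc.F (Cyc.nu (a k)) j‖ ≤ 1 / 2 := fun k j hj =>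
    Cyc.norm_F_nu (kk_pos (hn1 k)) (ha k j hj)
  have hsum : ∀ k, ∑ x, Cyc.nu (a k) x = 1 := fun k => Cyc.nu_sum (kk_pos (hn1 k)) (a k)
  have herg : ∀ k, Ergodic (Cyc.nu (a k)) := by
    intro k
    have hnp := Cyc.npos (n := n k)
    obtain ⟨t, ht⟩ := Cyc.exists_tv_le (by norm_num) (by norm_num) (hsum k) (hF k)
      (show (0 : ℝ) < 1 / (4 * (n k : ℝ)) by positivity)
    refine ⟨Cyc.nu_nonneg _, hsum k, Cyc.supp_of_pos t (Cyc.cpow_ne_zero_of_tv
      (ht.trans_lt ?_))⟩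
    rw [div_lt_div_iff₀ (by positivity) (by positivity)]
    linarith
  refine ⟨fun k => Cyc.nu (a k), herg, ?_⟩
  -- the mixing time tends to infinity
  have hT : Tendsto (fun k => tmix (Cyc.nu (a k)) (1 / 2)) atTop atTop := by
    rw [tendsto_atTop]
    intro M
    have h1 := (kk_pow_div M).comp hn
    filter_upwards [h1.eventually (gt_mem_nhds (show (0 : ℝ) < 1 / 2 by norm_num))] with k hk
    simp only [Function.comp] at hk
    obtain ⟨t0, ht0⟩ := Cyc.exists_tv_le (by norm_num) (by norm_num) (hsum k) (hF k)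
      (show (0 : ℝ) < 1 / 2 by norm_num)
    have hne : {t : ℕ | dist (Cyc.nu (a k)) t ≤ 1 / 2}.Nonempty := ⟨t0, by
      change dist _ _ ≤ _
      rw [dist_eq]; exact ht0⟩
    by_contra hcon
    push Not at hcon
    have h2 : dist (Cyc.nu (a k)) (tmix (Cyc.nu (a k)) (1 / 2)) ≤ 1 / 2 := Nat.sInf_mem hne
    rw [dist_eq] at h2
    have h3 := Cyc.tv_cpow_anti (Cyc.nu_nonneg (a k)) (hsum k) hcon.le
    have h4 := Cyc.tv_ge_supp (hsum k) (Cyc.supp (a k)) (fun x hx => Cyc.nu_eq_zero (a k) hx) M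
    have h5 : ((Cyc.supp (a k)).card : ℝ) ^ M / (n k : ℝ) ≤ (2 * (kk (n k) : ℝ)) ^ M / n k := by
      have h6 : ((Cyc.supp (a k)).card : ℝ) ≤ 2 * (kk (n k) : ℝ) := by
        exact_mod_cast Cyc.card_supp (a k)
      exact div_le_div_of_nonneg_right (pow_le_pow_left₀ (by positivity) h6 M)
        (Cyc.npos (n := n k)).le
    have h6 : Cyc.tv (Cyc.cpow (Cyc.nu (a k)) M) ≤
      Cyc.tv (Cyc.cpow (Cyc.nu (a k)) (tmix (Cyc.nu (a k)) (1 / 2))) := h3
    linarith
  have hT' : Tendsto (fun k => (tmix (Cyc.nu (a k)) (1 / 2) : ℝ)) atTop atTop :=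
    tendsto_natCast_atTop_atTop.comp hT
  have h2 : Tendsto (fun k => 2 / (tmix (Cyc.nu (a k)) (1 / 2) : ℝ)) atTop (𝓝 0) :=
    tendsto_const_nhds.div_atTop hT'
  unfold PeresCondition
  refine squeeze_zero (fun k => ?_) (fun k => ?_) h2
  · have hl := lam_lt (herg k)
    refine div_nonneg ?_ (Nat.cast_nonneg _)
    exact one_div_nonneg.mpr (by change 0 ≤ 1 - lam _; linarith)
  · refine div_le_div_of_nonneg_right ?_ (Nat.cast_nonneg _)
    have hl : lam (Cyc.nu (a k)) ≤ 1 / 2 := lam_le (by norm_num) (hF k)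
    change 1 / (1 - lam _) ≤ 2
    rw [div_le_iff₀ (by linarith)]
    linarith

/-- **Peres' condition never forces cutoff on cycles.**  Let `n_k → ∞` be any sequence.
(1) There are ergodic convolution walks on `ℤ/n_k` with `T_rel / T_mix(1/2) → 0`.
(2) For *every* sequence of ergodic step laws `ν_k` on `ℤ/n_k` with `T_rel / T_mix(1/2) → 0` there
are weights `q_k ∈ (0,1]`, `q_k → 0`, such that the step laws `μ_k = (1 - q_k) ν_k + q_k π`
(`π` uniform; so `‖μ_k - ν_k‖_TV ≤ q_k → 0`) are ergodic, still satisfy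
`T_rel / T_mix(1/2) → 0`, and have the exponential profile
`‖μ_k^{*⌊c / q_k⌋} - π‖_TV → exp(-c)` for every `c > 0`; in particular
`T_mix(ε) / T_mix(1-ε) → log ε / log (1-ε) > 1` for every `ε ∈ (0,1/2)`: there is no cutoff, and
not even a precutoff. -/
theorem result (n : ℕ → ℕ) [∀ k, NeZero (n k)] (hn : Tendsto n atTop atTop) :
    (∃ ν : ∀ k, ZMod (n k) → ℝ, (∀ k, Ergodic (ν k)) ∧ PeresCondition n ν) ∧
    ∀ ν : ∀ k, ZMod (n k) → ℝ, (∀ k, Ergodic (ν k)) → PeresCondition n ν →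
      ∃ q : ℕ → ℝ, (∀ k, 0 < q k ∧ q k ≤ 1) ∧ Tendsto q atTop (𝓝 0) ∧
        ∃ μ : ∀ k, ZMod (n k) → ℝ,
          (∀ k x, μ k x = (1 - q k) * ν k x + q k / (n k : ℝ)) ∧
          (∀ k, Ergodic (μ k)) ∧ PeresCondition n μ ∧
          (∀ c : ℝ, 0 < c →
            Tendsto (fun k => dist (μ k) ⌊c / q k⌋₊) atTop (𝓝 (Real.exp (-c)))) ∧
          (∀ ε : ℝ, 0 < ε → ε < 1 / 2 → 1 < Real.log ε / Real.log (1 - ε) ∧
            Tendsto (fun k => (tmix (μ k) ε : ℝ) / (tmix (μ k) (1 - ε) : ℝ)) atTop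
              (𝓝 (Real.log ε / Real.log (1 - ε)))) ∧
          ¬ HasCutoff n μ := by
  refine ⟨exists_peres n hn, fun ν hν hP => ?_⟩
  set T : ℕ → ℕ := fun k => tmix (ν k) (1 / 2) with hTdef
  set L : ℕ → ℝ := fun k => lam (ν k) with hLdef
  have h0 : ∀ k x, 0 ≤ ν k x := fun k => (hν k).nonneg
  have h1 : ∀ k, ∑ x, ν k x = 1 := fun k => (hν k).sum_one
  have hl0 : ∀ k, 0 ≤ L k := fun k => lam_nonneg _
  have hl1 : ∀ k, L k < 1 := fun k => lam_lt (hν k)
  have hF : ∀ k j, j ≠ 0 → ‖Cyc.F (ν k) j‖ ≤ L k := fun k j hj => le_lam _ j hj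
  have hT : ∀ k t, t < T k → 1 / 2 < Cyc.tv (Cyc.cpow (ν k) t) := by
    intro k t ht
    by_contra hcon
    push Not at hcon
    have : tmix (ν k) (1 / 2) ≤ t := Nat.sInf_le (by
      change dist _ _ ≤ _
      rw [dist_eq]; exact hcon)
    exact absurd ht (not_lt.mpr this)
  have hT1 : ∀ᶠ k in atTop, 1 ≤ T k := by
    filter_upwards [hn.eventually_ge_atTop 3] with k hk
    by_contra hcon
    have hT0 : T k = 0 := by omega
    obtain ⟨t0, ht0⟩ := Cyc.exists_tv_le (hl0 k) (hl1 k) (h1 k) (hF k)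
      (show (0 : ℝ) < 1 / 2 by norm_num)
    have hne : {t : ℕ | dist (ν k) t ≤ 1 / 2}.Nonempty := ⟨t0, by
      change dist _ _ ≤ _
      rw [dist_eq]; exact ht0⟩
    have h2 : dist (ν k) (T k) ≤ 1 / 2 := Nat.sInf_mem hne
    rw [hT0, dist_eq] at h2
    have h3 := Cyc.tv_ge_supp (h1 k) univ (fun x hx => absurd (Finset.mem_univ x) hx) 0
    rw [pow_zero] at h3
    have h4 : (3 : ℝ) ≤ n k := by exact_mod_cast hk
    have h5 : (1 : ℝ) / n k ≤ 1 / 3 := one_div_le_one_div_of_le (by norm_num) h4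
    linarith
  have hprod : Tendsto (fun k => (1 / (1 - L k)) / T k) atTop (𝓝 0) := hP
  have hak := Cyc.ak_tendsto L T hl0 hl1 hT1 hprod
  -- the weights
  set q : ℕ → ℝ := fun k => if 1 ≤ Cyc.ak L T k then 1 / Cyc.ak L T k else 1 with hq
  have hqev : ∀ᶠ k in atTop, q k = 1 / Cyc.ak L T k := by
    filter_upwards [hak.eventually_ge_atTop 1] with k hk
    rw [hq]; simp only; rw [if_pos hk]
  have hq01 : ∀ k, 0 < q k ∧ q k ≤ 1 := by
    intro k
    rw [hq]
    simp only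
    split_ifs with h
    · exact ⟨by positivity, by rw [div_le_one (by linarith)]; exact h⟩
    · exact ⟨one_pos, le_rfl⟩
  have hq0 : Tendsto q atTop (𝓝 0) := by
    have h2 : Tendsto (fun k => 1 / Cyc.ak L T k) atTop (𝓝 0) := by
      simp only [one_div]
      exact tendsto_inv_atTop_zero.comp hak
    exact h2.congr' (hqev.mono fun k hk => hk.symm)
  set μ : ∀ k, ZMod (n k) → ℝ := fun k x => (1 - q k) * ν k x + q k / (n k : ℝ) with hμ
  have hμe : ∀ k, Ergodic (μ k) := fun k => mix_ergodic (hν k) (hq01 k).1 (hq01 k).2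
  have hprof : ∀ c : ℝ, 0 < c →
      Tendsto (fun k => dist (μ k) ⌊c / q k⌋₊) atTop (𝓝 (Real.exp (-c))) := by
    intro c hc
    have h2 := Cyc.pert_profile n ν L T h0 h1 hl0 hl1 hF hT hT1 hprod hc
    refine h2.congr' ?_
    filter_upwards [hqev] with k hk
    rw [dist_eq, hμ]
    simp only
    rw [mix_eq, hk]
  have hanti : ∀ k, Antitone (dist (μ k)) := by
    intro k s t hst
    rw [dist_eq, dist_eq]
    exact Cyc.tv_cpow_anti (hμe k).nonneg (hμe k).sum_one hst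
  have hqpos : ∀ᶠ k in atTop, 0 < q k := Eventually.of_forall fun k => (hq01 k).1
  have hmix : ∀ ε : ℝ, 0 < ε → ε < 1 →
      Tendsto (fun k => (tmix (μ k) ε : ℝ) * q k) atTop (𝓝 (Real.log (1 / ε))) :=
    fun ε he0 he1 => Cyc.tmix_of_profile (fun k => dist (μ k)) q hqpos hanti hprof he0 he1
  have hratio : ∀ ε : ℝ, 0 < ε → ε < 1 / 2 → 1 < Real.log ε / Real.log (1 - ε) ∧
      Tendsto (fun k => (tmix (μ k) ε : ℝ) / (tmix (μ k) (1 - ε) : ℝ)) atTop
        (𝓝 (Real.log ε / Real.log (1 - ε))) := by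
    intro ε he0 he1
    constructor
    · have h2 : Real.log (1 - ε) < 0 := Real.log_neg (by linarith) (by linarith)
      have h3 : Real.log ε < Real.log (1 - ε) := Real.log_lt_log he0 (by linarith)
      rw [lt_div_iff_of_neg h2]
      linarith
    · exact Cyc.ratio_of_profile (fun k => dist (μ k)) q hqpos hanti hprof he0 (by linarith)
        (by linarith) (by linarith)
  refine ⟨q, hq01, hq0, μ, fun k x => rfl, hμe, ?_, hprof, hratio, ?_⟩
  · -- the product condition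
    have h2 := hmix (1 / 2) (by norm_num) (by norm_num)
    have h3 : Tendsto (fun k => trel (ν k) * q k) atTop (𝓝 0) := by
      have h4 := Cyc.R_div_ak L T hl0 hl1 hT1 hprod
      refine h4.congr' ?_
      filter_upwards [hqev] with k hk
      rw [hk]
      change 1 / (1 - lam (ν k)) / Cyc.ak L T k = 1 / (1 - lam (ν k)) * (1 / Cyc.ak L T k)
      rw [div_eq_mul_one_div]
    have hlog : Real.log (1 / (1 / 2)) ≠ 0 := by
      have : Real.log (1 / (1 / 2)) = Real.log 2 := by norm_num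
      rw [this]
      exact (Real.log_pos (by norm_num)).ne'
    have h4 := h3.div h2 hlog
    rw [zero_div] at h4
    unfold PeresCondition
    refine squeeze_zero (fun k => ?_) (fun k => ?_) h4
    · exact div_nonneg (trel_mix_le (hν k) (hq01 k).1 (hq01 k).2).1 (Nat.cast_nonneg _)
    · simp only [Pi.div_apply]
      rw [mul_div_mul_right _ _ (hq01 k).1.ne']
      exact div_le_div_of_nonneg_right (trel_mix_le (hν k) (hq01 k).1 (hq01 k).2).2
        (Nat.cast_nonneg _)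
  · intro hcut
    obtain ⟨h2, h3⟩ := hratio (1 / 4) (by norm_num) (by norm_num)
    have h4 := hcut (1 / 4) (by norm_num) (by norm_num)
    have h5 := tendsto_nhds_unique h3 h4
    linarith

end

end Pool.Agent.Results.MP_ee50b4_pr.FragileCutoff
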